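import Pool.Graph.R_seed8.TH145.MG.Bdd
import Pool.Graph.R_seed8.TH145.GF.Ext
import Pool.Graph.R_seed8.TH145.MG.Unb

/-!
Sequences of elements of a sequence of function fields, of bounded relative height, in the
ultrapower of a common overfield.
-/

set_option autoImplicit false

open Finset FF Pool.Agent.W603.LV Pool.Agent.W603.PV Pool.Agent.W602.RG

namespace Pool.Agent.KS6_26.U

open Pool.Agent.TH145.MW Pool.Agent.TH145.MG

variable (κ : ℕ → Type) {Fb : Type} [∀ m, Field (κ m)] [∀ m, IsAlgClosed (κ m)]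
  [∀ m, CharZero (κ m)] [Field Fb]
  {L : ℕ → Type} [∀ m, Field (L m)] [∀ m, Algebra (κ m) (L m)] [∀ m, IsFF (κ m) (L m)]
  (ι : ∀ m, L m →+* Fb) (T : ℕ → ℤ)

/-- The elements of the ultrapower which are given by sequences of elements of the fields `L m`
whose height is at most a multiple of `T m`. -/
noncomputable def BU : Subfield (Om Fb) where
  carrier := {z | ∃ (u : ∀ m, L m) (B : ℤ), z = Om.mk (fun m => ι m (u m)) ∧
    ∀ m, hgt (κ m) (u m) ≤ B * T m}
  mul_mem' := by
    rintro _ _ ⟨u, B, rfl, hu⟩ ⟨v, C, rfl, hv⟩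
    refine ⟨fun m => u m * v m, B + C, ?_, fun m => ?_⟩
    · rw [Om.mk_mul]
      congr 1
      funext m
      rw [map_mul]
    · have := (hgt_mul_le (k := κ m) (u m) (v m)).trans (add_le_add (hu m) (hv m))
      rwa [← add_mul] at this
  one_mem' := ⟨fun _ => 1, 0, by
    rw [← Om.mk_one]
    congr 1
    funext m
    rw [map_one], fun _ => by rw [hgt_one, zero_mul]⟩
  add_mem' := by
    rintro _ _ ⟨u, B, rfl, hu⟩ ⟨v, C, rfl, hv⟩
    refine ⟨fun m => u m + v m, B + C, ?_, fun m => ?_⟩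
    · rw [Om.mk_add]
      congr 1
      funext m
      rw [map_add]
    · have := (hgt_add_le (k := κ m) (u m) (v m)).trans (add_le_add (hu m) (hv m))
      rwa [← add_mul] at this
  zero_mem' := ⟨fun _ => 0, 0, by
    rw [← Om.mk_zero]
    congr 1
    funext m
    rw [map_zero], fun _ => by rw [hgt_zero, zero_mul]⟩
  neg_mem' := by
    rintro _ ⟨u, B, rfl, hu⟩
    refine ⟨fun m => - u m, B, ?_, fun m => by rw [hgt_neg]; exact hu m⟩
    change (Om.mk fun m => - ι m (u m)) = _
    congr 1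
    funext m
    rw [map_neg]
  inv_mem' := by
    rintro _ ⟨u, B, rfl, hu⟩
    refine ⟨fun m => (u m)⁻¹, B, ?_, fun m => by rw [hgt_inv]; exact hu m⟩
    rw [mk_inv']
    congr 1
    funext m
    rw [map_inv₀]

variable {κ ι T}

theorem BU.mem {v : ∀ m, L m} {B : ℤ} (h : ∀ m, hgt (κ m) (v m) ≤ B * T m) :
    Om.mk (fun m => ι m (v m)) ∈ BU κ ι T := ⟨v, B, rfl, h⟩

/-- The elements of the ultrapower which are given by the fields `L m` and algebraic over the
elements of bounded height have bounded height. -/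
theorem BU.alg {v : ∀ m, L m}
    (hz : IsAlgebraic (BU κ ι T) (Om.mk fun m => ι m (v m))) :
    ∃ B : ℤ, ∀ᶠ m in (Filter.hyperfilter ℕ : Filter ℕ), hgt (κ m) (v m) ≤ B * T m := by
  classical
  have hint : IsIntegral (BU κ ι T) (Om.mk fun m => ι m (v m)) := hz.isIntegral
  obtain ⟨p, hp, hpz⟩ := hint
  have h1 : (Om.mk fun m => ι m (v m)) ^ p.natDegree =
      ∑ i : Fin p.natDegree, (-(p.coeff i : Om Fb)) * (Om.mk fun m => ι m (v m)) ^ (i : ℕ) := by
    rw [Polynomial.eval₂_eq_sum_range, Finset.sum_range_succ, hp.coeff_natDegree, map_one,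
      one_mul] at hpz
    rw [Finset.sum_range] at hpz
    simp only [neg_mul, Finset.sum_neg_distrib]
    rw [eq_neg_iff_add_eq_zero, add_comm]
    exact hpz
  have h2 : ∀ i : Fin p.natDegree, ∃ (a : ∀ m, L m) (B : ℤ),
      -(p.coeff i : Om Fb) = Om.mk (fun m => ι m (a m)) ∧ ∀ m, hgt (κ m) (a m) ≤ B * T m :=
    fun i => neg_mem (p.coeff i).2
  choose a B ha hB using h2
  have h4 : ∀ᶠ m in (Filter.hyperfilter ℕ : Filter ℕ),
      v m ^ p.natDegree = ∑ i : Fin p.natDegree, a i m * v m ^ (i : ℕ) := by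
    have h5 : (Om.mk fun m => ι m (v m ^ p.natDegree)) =
        (Om.mk fun m => ι m (v m)) ^ p.natDegree := by
      rw [← Pool.Agent.TH145.MF.mkHom_apply, ← Pool.Agent.TH145.MF.mkHom_apply, ← map_pow]
      congr 1
      funext m
      rw [map_pow]
      rfl
    have h6 : (Om.mk fun m => ι m (∑ i : Fin p.natDegree, a i m * v m ^ (i : ℕ))) =
        ∑ i : Fin p.natDegree, Om.mk (fun m => ι m (a i m)) *
          (Om.mk fun m => ι m (v m)) ^ (i : ℕ) := by
      have h7 : (fun m => ι m (∑ i : Fin p.natDegree, a i m * v m ^ (i : ℕ))) =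
          fun m => ∑ i : Fin p.natDegree, ι m (a i m) * ι m (v m) ^ (i : ℕ) := by
        funext m
        rw [map_sum]
        exact Finset.sum_congr rfl fun i _ => by rw [map_mul, map_pow]
      rw [h7, Pool.Agent.W61.RG.GSP.mk_sum Finset.univ
        (fun i m => ι m (a i m) * ι m (v m) ^ ((i : Fin _) : ℕ))]
      refine Finset.sum_congr rfl fun i _ => ?_
      rw [← Pool.Agent.TH145.MF.mkHom_apply, ← Pool.Agent.TH145.MF.mkHom_apply,
        ← Pool.Agent.TH145.MF.mkHom_apply, ← map_pow, ← map_mul]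
      rfl
    have h8 : (Om.mk fun m => ι m (v m ^ p.natDegree)) =
        Om.mk fun m => ι m (∑ i : Fin p.natDegree, a i m * v m ^ (i : ℕ)) := by
      rw [h5, h6, h1]
      exact Finset.sum_congr rfl fun i _ => by rw [ha i]
    exact (Om.mk_eq.1 h8).mono fun m hm => (ι m).injective hm
  refine ⟨∑ i, B i, h4.mono fun m hm => (root_hgt _ _ _ hm).trans ?_⟩
  rw [Finset.sum_mul]
  exact Finset.sum_le_sum fun i _ => hB i m

end Pool.Agent.KS6_26.U
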