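import Mathlib

/-!
A common overfield of a sequence of fields.
-/

set_option autoImplicit false

namespace Pool.Agent.KS6_26.U

/-- A sequence of fields of characteristic zero is contained in an algebraically closed field. -/
theorem exists_common (L : ℕ → Type) [∀ m, Field (L m)] [∀ m, CharZero (L m)] :
    ∃ (Fb : Type) (_ : Field Fb) (_ : IsAlgClosed Fb), ∀ m, Nonempty (L m →+* Fb) := by
  refine ⟨AlgebraicClosure (FractionRing (MvPolynomial ((m : ℕ) × L m) ℚ)), inferInstance,
    inferInstance, fun m => ?_⟩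
  obtain ⟨s, hs⟩ := exists_isTranscendenceBasis ℚ (L m)
  have halg := hs.isAlgebraic
  obtain ⟨f, hf⟩ : ∃ f : MvPolynomial s ℚ →+*
      AlgebraicClosure (FractionRing (MvPolynomial ((m : ℕ) × L m) ℚ)), Function.Injective f := by
    refine ⟨((algebraMap (FractionRing (MvPolynomial ((m : ℕ) × L m) ℚ)) (AlgebraicClosure
      (FractionRing (MvPolynomial ((m : ℕ) × L m) ℚ)))).comp (algebraMap
      (MvPolynomial ((m : ℕ) × L m) ℚ) (FractionRing (MvPolynomial ((m : ℕ) × L m) ℚ)))).comp
      (MvPolynomial.rename fun i : s => (⟨m, i⟩ : (m : ℕ) × L m)).toRingHom, ?_⟩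
    have h1 : Function.Injective (MvPolynomial.rename (R := ℚ)
        fun i : s => (⟨m, i⟩ : (m : ℕ) × L m)) := by
      refine MvPolynomial.rename_injective _ fun i j h => ?_
      have h2 := eq_of_heq (Sigma.mk.inj_iff.1 h).2
      exact Subtype.ext h2
    have h2 : Function.Injective (algebraMap
      (MvPolynomial ((m : ℕ) × L m) ℚ) (FractionRing (MvPolynomial ((m : ℕ) × L m) ℚ))) :=
      IsFractionRing.injective _ _
    have h3 := (algebraMap (FractionRing (MvPolynomial ((m : ℕ) × L m) ℚ)) (AlgebraicClosure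
      (FractionRing (MvPolynomial ((m : ℕ) × L m) ℚ)))).injective
    exact (h3.comp h2).comp h1
  let e := hs.1.aevalEquiv
  let i1 : Algebra (Algebra.adjoin ℚ (Set.range ((↑) : s → L m)))
      (AlgebraicClosure (FractionRing (MvPolynomial ((m : ℕ) × L m) ℚ))) :=
    (f.comp (e.symm : Algebra.adjoin ℚ (Set.range ((↑) : s → L m)) →+* MvPolynomial s ℚ)).toAlgebra
  have h1 : FaithfulSMul (Algebra.adjoin ℚ (Set.range ((↑) : s → L m)))
      (AlgebraicClosure (FractionRing (MvPolynomial ((m : ℕ) × L m) ℚ))) := by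
    rw [faithfulSMul_iff_algebraMap_injective]
    exact hf.comp e.symm.injective
  exact ⟨(IsAlgClosed.lift (R := Algebra.adjoin ℚ (Set.range ((↑) : s → L m))) (S := L m)
    (M := AlgebraicClosure (FractionRing (MvPolynomial ((m : ℕ) × L m) ℚ)))).toRingHom⟩

end Pool.Agent.KS6_26.U
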