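import Pool.Agent.KS6_26.G.GenA
import Pool.Graph.R_seed8.Y741.Seq
import Pool.Graph.R_seed8.TH145.MG.Unb

/-!
Limits of sequences of forms in an ultrapower.
-/

set_option autoImplicit false

open MvPolynomial Pool.Agent.W603.LV Pool.Agent.W602.RG Pool.Agent.TH145.MF
  Pool.Agent.TH145.GH Pool.Agent.Y741
open Pool.Agent.TH145.GC (Cf finite_cf)
open Pool.Agent.Y735 (pl)
open Pool.Agent.KS6_26.G

namespace Pool.Agent.KS6_26.U

variable {K : Type} [Field K] {n : ℕ}

theorem fin_deg (n d : ℕ) : {I : Fin (n + 1) →₀ ℕ | I.degree = d}.Finite :=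
  (Finsupp.finite_of_degree_le d).subset fun _ hI => le_of_eq hI

/-- The form with the given coefficients. -/
noncomputable def form {R : Type} [CommSemiring R] (n d : ℕ) (c : (Fin (n + 1) →₀ ℕ) → R) :
    MvPolynomial (Fin (n + 1)) R :=
  ∑ I ∈ (fin_deg n d).toFinset, monomial I (c I)

theorem coeff_form {R : Type} [CommSemiring R] {n d : ℕ} (c : (Fin (n + 1) →₀ ℕ) → R)
    {I : Fin (n + 1) →₀ ℕ} (hI : I.degree = d) : (form n d c).coeff I = c I := by
  classical
  unfold form
  rw [coeff_sum, Finset.sum_eq_single I]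
  · rw [coeff_monomial, if_pos rfl]
  · intro J _ hJ
    rw [coeff_monomial, if_neg hJ]
  · intro h
    exact absurd ((fin_deg n d).mem_toFinset.2 hI) h

theorem form_hom {R : Type} [CommSemiring R] {n d : ℕ} (c : (Fin (n + 1) →₀ ℕ) → R) :
    (form n d c).IsHomogeneous d := by
  refine IsHomogeneous.sum _ _ _ fun I hI => ?_
  exact isHomogeneous_monomial _ ((fin_deg n d).mem_toFinset.1 hI)

theorem map_form {R S : Type} [CommSemiring R] [CommSemiring S] (f : R →+* S) {n d : ℕ}
    (c : (Fin (n + 1) →₀ ℕ) → R) : map f (form n d c) = form n d fun I => f (c I) := by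
  unfold form
  rw [map_sum]
  exact Finset.sum_congr rfl fun I _ => MvPolynomial.map_monomial _ _ _

theorem form_coeff {R : Type} [CommSemiring R] {n d : ℕ} {F : MvPolynomial (Fin (n + 1)) R}
    (hF : F.IsHomogeneous d) : form n d (fun I => F.coeff I) = F := by
  classical
  ext I
  by_cases hI : I.degree = d
  · rw [coeff_form _ hI]
  · rw [(form_hom _).coeff_eq_zero hI, hF.coeff_eq_zero hI]

/-- The limit of a sequence of forms. -/
noncomputable def lim (d : ℕ) (G : ℕ → MvPolynomial (Fin (n + 1)) K) :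
    MvPolynomial (Fin (n + 1)) (Om K) :=
  form n d fun I => Om.mk fun m => (G m).coeff I

theorem lim_hom {d : ℕ} (G : ℕ → MvPolynomial (Fin (n + 1)) K) : (lim d G).IsHomogeneous d :=
  form_hom _

theorem eval_lim {d : ℕ} {G : ℕ → MvPolynomial (Fin (n + 1)) K}
    (hG : ∀ m, (G m).IsHomogeneous d) (x : ℕ → Fin (n + 1) → K) :
    eval (fun j => Om.mk fun m => x m j) (lim d G) = Om.mk fun m => eval (x m) (G m) := by
  obtain ⟨P, hP⟩ : ∃ P : MvPolynomial (Fin (n + 1)) (ℕ → K),
    P = form n d fun I m => (G m).coeff I := ⟨_, rfl⟩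
  have h1 : lim d G = map (mkHom K) P := by
    rw [hP, map_form]
    rfl
  have h2 : (fun j => Om.mk fun m => x m j) = fun j => mkHom K (fun m => x m j) := rfl
  have h3 : eval (fun j => mkHom K (fun m => x m j)) (map (mkHom K) P) =
      mkHom K (eval (fun j m => x m j) P) := by
    rw [eval_map]
    have h4 := eval₂_comp_left (mkHom K) (RingHom.id (ℕ → K)) (fun j m => x m j) P
    rw [RingHom.comp_id] at h4
    rw [← eval₂_id, h4]
    rfl
  rw [h1, h2, h3, mkHom_apply]
  congr 1
  funext m
  have h5 : eval (fun j m => x m j) P m = Pi.evalRingHom (fun _ : ℕ => K) m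
      (eval (fun j m => x m j) P) := rfl
  have h6 := eval₂_comp_left (Pi.evalRingHom (fun _ : ℕ => K) m) (RingHom.id (ℕ → K))
    (fun j m => x m j) P
  rw [RingHom.comp_id] at h6
  rw [h5, ← eval₂_id, h6, ← eval_map]
  have h7 : map (Pi.evalRingHom (fun _ : ℕ => K) m) P = G m := by
    rw [hP, map_form]
    exact form_coeff (hG m)
  rw [h7]
  rfl

/-- The limit of generic families is generic. -/
theorem GenA.lim {A : Type} {dg : A → ℕ} {G : ℕ → A → MvPolynomial (Fin (n + 1)) K}
    (h : ∀ m, GenA dg (G m)) : GenA dg fun a => lim (dg a) fun m => G m a := by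
  have key : ∀ p : MvPolynomial (Cf n dg) ℤ,
      aeval (fun q : Cf n dg => (U.lim (dg q.1) fun m => G m q.1).coeff q.2.1) p =
        Om.mk fun m => aeval (fun q : Cf n dg => (G m q.1).coeff q.2.1) p := by
    intro p
    have h1 : (fun q : Cf n dg => (U.lim (dg q.1) fun m => G m q.1).coeff q.2.1) =
        fun q : Cf n dg => mkHom K fun m => (G m q.1).coeff q.2.1 := by
      funext q
      exact coeff_form _ q.2.2
    rw [h1]
    have h2 := DFunLike.congr_fun (MvPolynomial.comp_aeval
      (fun q : Cf n dg => fun m => (G m q.1).coeff q.2.1) (mkHom K).toIntAlgHom) p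
    change (mkHom K) (aeval (fun q : Cf n dg => fun m => (G m q.1).coeff q.2.1) p) =
      aeval (fun q : Cf n dg => mkHom K fun m => (G m q.1).coeff q.2.1) p at h2
    rw [← h2, mkHom_apply]
    congr 1
    funext m
    exact DFunLike.congr_fun (MvPolynomial.comp_aeval
      (fun q : Cf n dg => fun m => (G m q.1).coeff q.2.1)
      (Pi.evalRingHom (fun _ : ℕ => K) m).toIntAlgHom) p
  rw [GenA, algebraicIndependent_iff]
  intro p hp
  rw [key] at hp
  have h1 : Om.mk (fun m => aeval (fun q : Cf n dg => (G m q.1).coeff q.2.1) p) =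
    Om.mk fun _ => (0 : K) := hp
  obtain ⟨m, hm⟩ := (Om.mk_eq.1 h1).exists
  exact (algebraicIndependent_iff.1 (h m)) p hm

/-- Lines in the ultrapower. -/
theorem exc_lim [Infinite K] {A : Type} [Fintype A] [DecidableEq A] {dg : A → ℕ}
    {G : ℕ → A → MvPolynomial (Fin (n + 1)) K} (hG : ∀ m a, (G m a).IsHomogeneous (dg a))
    (x : ℕ → Fin (n + 1) → K) (hx : ∀ m a, eval (x m) (G m a) = 0)
    {y : Fin (n + 1) → Om K} {ik : Fin (n + 1) × Fin (n + 1)}
    (hik : pl (fun j => Om.mk fun m => x m j) y ik ≠ 0)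
    (h1 : ∀ a, ∀ α β : Om K, eval (α • (fun j => Om.mk fun m => x m j) + β • y)
      (lim (dg a) fun m => G m a) = 0) :
    ∃ m, Exc 1 (G m) Finset.univ (x m) := by
  choose y' hy' using fun j => Om.mk_surj (y j)
  have hyy : y = fun j => Om.mk (y' j) := funext fun j => (hy' j).symm
  subst hyy
  have e1 := ev_pl x y' hik
  have hev : ∀ (t : ℕ → K) (a : A), eval (Om.mk t • (fun j => Om.mk fun m => x m j) +
      fun j => Om.mk (y' j)) (lim (dg a) fun m => G m a) =
      Om.mk fun m => eval (t m • x m + fun j => y' j m) (G m a) := by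
    intro t a
    have h4 : (Om.mk t • fun j => Om.mk fun m => x m j) + (fun j => Om.mk (y' j)) =
        fun j => Om.mk fun m => (t m • x m + fun j => y' j m) j := by
      funext j
      rw [Pi.add_apply, Pi.smul_apply, smul_eq_mul, Om.mk_mul, Om.mk_add]
      rfl
    rw [h4]
    exact eval_lim (fun m => hG m a) (fun m => t m • x m + fun j => y' j m)
  have e2 : ∀ᶠ m in (Filter.hyperfilter ℕ : Filter ℕ), ∀ a, ∀ t : K,
      eval (t • x m + fun j => y' j m) (G m a) = 0 := by
    rw [Filter.eventually_all]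
    intro a
    refine ev_poly (fun m (t : K) => eval (t • x m + fun j => y' j m) (G m a) = 0) fun t => ?_
    have h3 := h1 a (Om.mk t) 1
    rw [one_smul, hev] at h3
    exact ev_of_eq (v := fun _ => 0) h3
  obtain ⟨m, hm1, hm2⟩ := (e1.and e2).exists
  refine ⟨m, fun j => y' j m, ik, hm1, ?_, pun_of_one (dg := dg) le_rfl
    ⟨0, fun b hb => absurd (Finset.mem_univ b) hb⟩⟩
  intro c _ a b
  by_cases hb : b = 0
  · rw [hb, zero_smul, add_zero, eval_smul_hom (hG m c), hx m c, mul_zero]
  · have h4 : a • x m + b • (fun j => y' j m) = b • ((a / b) • x m + fun j => y' j m) := by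
      rw [smul_add, smul_smul]
      congr 2
      field_simp
    rw [h4, eval_smul_hom (hG m c), hm2 c, mul_zero]

end Pool.Agent.KS6_26.U
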