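import Pool.Agent.KS6_26.U.Voj
import Pool.Agent.KS6_26.G.Main
import Pool.Graph.R_seed8.Y741.UFin2
import Pool.Graph.R_seed8.Y735.LG.CI
import Pool.Graph.R_pool_sql_team_seeded_620a6dc7.Helper449_QS.Surf

/-!
Vojta's height inequality for generic complete intersections: assembly.
-/

set_option autoImplicit false

open MvPolynomial FF Pool.Agent.W603.LV Pool.Agent.W603.PV Pool.Agent.TH145.GH
open Pool.Agent.TH145.GC (Cf finite_cf)
open Pool.Agent.W602.GT Pool.Agent.TH145.MG
open Pool.Agent.Y741 Pool.Agent.KS6_26.G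
open LinearAlgebra.Projectivization

namespace Pool.Agent.KS6_26.U

/-- The condition on the degrees, for surfaces. -/
theorem crit_surf {n : ℕ} {A : Type} [Fintype A] [DecidableEq A] {d : A → ℕ}
    (hA : Fintype.card A + 2 = n) (hA1 : Fintype.card A ≠ 1) (hd2 : ∀ a, 2 ≤ d a)
    (hS : ∑ a, d a = n + 2) : Crit n d := by
  intro a
  have h1 : ∑ b ∈ Finset.univ.erase a, d b + d a = n + 2 := by
    rw [← hS, Finset.sum_erase_add _ _ (Finset.mem_univ a)]
  have h2 : (Finset.univ.erase a).card + 1 = Fintype.card A := by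
    rw [Finset.card_erase_of_mem (Finset.mem_univ a), Finset.card_univ]
    have : 0 < Fintype.card A := Fintype.card_pos_iff.2 ⟨a⟩
    omega
  have h3 : ∑ b ∈ Finset.univ.erase a, d b ≤ ∑ b ∈ Finset.univ.erase a, (d b).choose 2 +
      (Finset.univ.erase a).card := by
    rw [Finset.card_eq_sum_ones, ← Finset.sum_add_distrib]
    refine Finset.sum_le_sum fun b _ => ?_
    obtain ⟨m, hm⟩ := Nat.exists_eq_add_of_le (hd2 b)
    have h4 := two_choose (m + 1)
    rw [hm, show 2 + m = m + 1 + 1 by ring]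
    nlinarith
  have h4 : 2 * (Finset.univ.erase a).card ≤ ∑ b ∈ Finset.univ.erase a, d b := by
    rw [Finset.card_eq_sum_ones, Finset.mul_sum]
    refine Finset.sum_le_sum fun b _ => ?_
    have := hd2 b
    omega
  have h5 : d a ≤ 4 := by omega
  rcases Nat.lt_or_ge (d a) 4 with h6 | h6
  · left
    omega
  · right
    refine ⟨by omega, ?_⟩
    have h7 : (Finset.univ.erase a).card = 1 := by omega
    obtain ⟨b, hb⟩ := Finset.card_eq_one.1 h7
    rw [hb, Finset.sum_singleton] at h1
    refine ⟨b, ?_, by omega⟩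
    have h8 : b ∈ Finset.univ.erase a := by rw [hb]; exact Finset.mem_singleton_self b
    exact (Finset.mem_erase.1 h8).1

/-- Vojta's height inequality for generic complete intersections. -/
theorem main {n : ℕ} {A : Type} [Fintype A] [DecidableEq A] (hA : Fintype.card A < n) {d : A → ℕ}
    (hd0 : ∀ a, 0 < d a) (hd : 3 * n + 2 ≤ 2 * ∑ a, d a + Fintype.card A)
    (hcr : 3 * n + 2 = 2 * ∑ a, d a + Fintype.card A → Crit n d) :
    ∃ c : ℕ, ∀ (k0 k F0 F : Type) [Field k0] [Field k] [Field F0] [Field F] [IsAlgClosed k]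
      [CharZero k] [Algebra k0 k] [Algebra k F] [Algebra k0 F] [IsScalarTower k0 k F]
      [Algebra k0 F0] [Algebra F0 F] [IsScalarTower k0 F0 F] [IsFF k F],
      (∃ S : Finset F0, IntermediateField.adjoin k0 (S : Set F0) = ⊤) →
      ∀ (H : A → MvPolynomial (Fin (n + 1)) F), (∀ a, (H a).IsHomogeneous (d a)) →
      (AlgebraicIndependent F0 fun p : (a : A) × {I : Fin (n + 1) →₀ ℕ // I.degree = d a} =>
        (H p.1).coeff p.2.1) →
      ∃ B : ℕ, ∀ (Ω : Type) [Field Ω] [Algebra F Ω] [IsAlgClosed Ω] (L : Type) [Field L]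
        [Algebra k L] [Algebra F L] [IsScalarTower k F L] [FiniteDimensional F L]
        (φ : L →ₐ[F] Ω) (x : Fin (n + 1) → L), x ≠ 0 → (∀ a, aeval x (H a) = 0) →
        pht k x ≤ c * canDeg k L + B * Module.finrank F L ∨
          ∃ W, LineIn (fun a => map (algebraMap F Ω) (H a)) W ∧ (fun j => φ (x j)) ∈ W := by
  classical
  rcases Nat.lt_or_ge (3 * n + 2) (2 * ∑ a, d a + Fintype.card A) with hlt | hge
  · obtain ⟨c, hc⟩ := generic_vojta (n := n) (by omega) hd0 Finset.univ (by
      rw [Finset.card_univ]; omega)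
    refine ⟨c, ?_⟩
    intro k0 k F0 F _ _ _ _ _ _ _ _ _ _ _ _ _ _ hfg H hH hgen
    obtain ⟨B, hB⟩ := hc k0 k F0 F hfg H hH hgen
    refine ⟨B, ?_⟩
    intro Ω _ _ _ L _ _ _ _ _ φ x hx hxH
    rcases (hB Ω).1 L φ x hx (fun c _ => hxH c) (fun b hb => absurd (Finset.mem_univ b) hb)
      with h | ⟨W, ⟨hW, -⟩, hxW⟩
    · left
      have h1 : {P : Place k L | ∃ b, b ∉ (Finset.univ : Finset A) ∧
          d b * pord P x < P.ord (aeval x (H b))} = ∅ := by
        ext P
        simp
      rw [h1, Set.ncard_empty, Nat.cast_zero, add_zero] at h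
      exact h
    · exact Or.inr ⟨W, ⟨hW.1, fun a => hW.2 a (Finset.mem_univ a)⟩, hxW⟩
  · have he : 3 * n + 2 = 2 * ∑ a, d a + Fintype.card A := by omega
    obtain ⟨c, hc⟩ := vojta_border n A d hd0 hA he (hcr he)
    refine ⟨c, ?_⟩
    intro k0 k F0 F _ _ _ _ _ _ _ _ _ _ _ _ _ _ hfg H hH hgen
    obtain ⟨B, hB⟩ := hc k0 k F0 F hfg H hH hgen
    refine ⟨B, ?_⟩
    intro Ω _ _ _ L _ _ _ _ _ φ x hx hxH
    let _ : Algebra L Ω := φ.toRingHom.toAlgebra
    by_cases hexc : Exc 1 (mapF (algebraMap L Ω) fun a => map (algebraMap F L) (H a)) Finset.univ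
      (fun j => algebraMap L Ω (x j))
    · right
      obtain ⟨W, hW, hxW⟩ := lineIn_of_exc hexc
      have h1 : (mapF (algebraMap L Ω) fun a => map (algebraMap F L) (H a)) =
          fun a => map (algebraMap F Ω) (H a) := by
        unfold mapF
        funext a
        rw [map_map]
        exact congrArg (fun f => map f (H a)) φ.comp_algebraMap
      rw [h1] at hW
      exact ⟨W, hW, hxW⟩
    · exact Or.inl (hB L Ω x hx hxH hexc)

/-- The height inequality for all algebraic points on generic surfaces of general type. -/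
theorem surf {n : ℕ} {A : Type} [Fintype A] [DecidableEq A] (hA : Fintype.card A + 2 = n)
    {d : A → ℕ} (hd2 : ∀ a, 2 ≤ d a) (hdn : n + 2 ≤ ∑ a, d a)
    {k0 k F0 F : Type} [Field k0] [Field k] [Field F0] [Field F] [IsAlgClosed k]
    [CharZero k] [Algebra k0 k] [Algebra k F] [Algebra k0 F] [IsScalarTower k0 k F]
    [Algebra k0 F0] [Algebra F0 F] [IsScalarTower k0 F0 F] [IsFF k F]
    (hfg : ∃ S : Finset F0, IntermediateField.adjoin k0 (S : Set F0) = ⊤)
    {H : A → MvPolynomial (Fin (n + 1)) F} (hH : ∀ a, (H a).IsHomogeneous (d a))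
    (hgen : AlgebraicIndependent F0 fun p : (a : A) × {I : Fin (n + 1) →₀ ℕ // I.degree = d a} =>
      (H p.1).coeff p.2.1) :
    ∃ c B : ℕ, ∀ (L : Type) [Field L] [Algebra k L] [Algebra F L]
      [IsScalarTower k F L] [FiniteDimensional F L] (x : Fin (n + 1) → L), x ≠ 0 →
      (∀ a, aeval x (H a) = 0) → pht k x ≤ c * canDeg k L + B * Module.finrank F L := by
  classical
  have hF : CharZero F := charZero_of_injective_algebraMap (algebraMap k F).injective
  by_cases hA1 : Fintype.card A = 1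
  · obtain ⟨a, ha⟩ := Fintype.card_eq_one_iff.1 hA1
    have hn3 : n = 3 := by omega
    subst hn3
    have hsum : ∑ b, d b = d a := by
      rw [Finset.sum_eq_single a (fun b _ hb => absurd (ha b) hb)
        (fun h => absurd (Finset.mem_univ a) h)]
    have hgen' : AlgebraicIndependent F0 fun I : {I : Fin (3 + 1) →₀ ℕ // I.degree = d a} =>
        (H a).coeff I.1 := by
      exact hgen.comp (fun I : {I : Fin (3 + 1) →₀ ℕ // I.degree = d a} =>
        (⟨a, I⟩ : (a : A) × {I : Fin (3 + 1) →₀ ℕ // I.degree = d a}))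
        (fun I J h => eq_of_heq (Sigma.mk.inj_iff.1 h).2)
    obtain ⟨c, B, h⟩ := Pool.Agent.Helper449_QS.vojta_surf (k0 := k0) (k := k) hfg
      (by omega) (hH a) hgen'
    exact ⟨c, B, fun L _ _ _ _ _ x hx hxH => h L x hx (hxH a)⟩
  · have hd0 : ∀ a, 0 < d a := fun a => by have := hd2 a; omega
    obtain ⟨c, hc⟩ := main (n := n) (by omega) hd0 (by omega) fun h =>
      crit_surf hA hA1 hd2 (by omega)
    obtain ⟨B, hB⟩ := hc k0 k F0 F hfg H hH hgen
    refine ⟨c, B, fun L _ _ _ _ _ x hx hxH => ?_⟩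
    have hLz : CharZero L := charZero_of_injective_algebraMap (algebraMap F L).injective
    refine (hB (AlgebraicClosure F) L IsAlgClosed.lift x hx hxH).resolve_right ?_
    rintro ⟨W, hW, -⟩
    obtain ⟨G, hG⟩ : ∃ G : A → MvPolynomial (Fin (n + 1)) (AlgebraicClosure F),
      ∀ a, G a = map (algebraMap F (AlgebraicClosure F)) (H a) := ⟨_, fun _ => rfl⟩
    have hGG : (fun a => map (algebraMap F (AlgebraicClosure F)) (H a)) = G :=
      funext fun a => (hG a).symm
    rw [hGG] at hW
    have hgΩ := indep_ext hgen hG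
    let _ : Algebra F0 (AlgebraicClosure F) :=
      ((algebraMap F (AlgebraicClosure F)).comp (algebraMap F0 F)).toAlgebra
    have hczΩ : CharZero (AlgebraicClosure F) :=
      charZero_of_injective_algebraMap (algebraMap F (AlgebraicClosure F)).injective
    obtain ⟨I0, hI0⟩ : ∃ I0 : A → Fin (n + 1) →₀ ℕ, ∀ a, (I0 a).degree = d a :=
      ⟨fun a => Finsupp.single 0 (d a), fun a => Finsupp.degree_single _ _⟩
    have h0 : ∀ a, (G a).coeff (I0 a) ≠ 0 := fun a => hgΩ.ne_zero ⟨a, ⟨I0 a, hI0 a⟩⟩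
    obtain ⟨v, hv, hv0⟩ : ∃ v ∈ W, v ≠ 0 := by
      have h1 : W ≠ ⊥ := by
        rintro rfl
        have := hW.1
        rw [finrank_bot] at this
        omega
      exact Submodule.exists_mem_ne_zero_of_ne_bot h1
    obtain ⟨y, ik, hik, h1, -⟩ := exc_of_lineIn d hW hv hv0
    exact no_line_K (k := F0) (by omega) G (fun a => by rw [hG]; exact (hH a).map _) I0 h0
      (ratio_indep_fam hgΩ I0 hI0) (li_of_pl hik) fun c a b => h1 c (Finset.mem_univ c) a b

end Pool.Agent.KS6_26.U
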