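import Pool.Agent.KS6_26.G.Ultra
import Pool.Agent.KS6_26.U.Lim
import Pool.Agent.KS6_26.U.Bdd

/-!
Points on planes of bounded relative height, for sequences of function fields.
-/

set_option autoImplicit false

open MvPolynomial FF Pool.Agent.W603.LV Pool.Agent.W603.PV Pool.Agent.W602.RG Pool.Agent.TH145.GH
  Pool.Agent.TH145.MF Pool.Agent.Y741
open Pool.Agent.TH145.GC (Cf finite_cf)
open Pool.Agent.Y735 (pl)
open Pool.Agent.KS6_26.G

namespace Pool.Agent.KS6_26.U

/-- The points on planes of bounded relative height have bounded relative height. -/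
theorem ultraV {κ : ℕ → Type} {Fb : Type} [∀ m, Field (κ m)] [∀ m, IsAlgClosed (κ m)]
    [∀ m, CharZero (κ m)] [Field Fb] [IsAlgClosed Fb]
    {L : ℕ → Type} [∀ m, Field (L m)] [∀ m, Algebra (κ m) (L m)] [∀ m, IsFF (κ m) (L m)]
    (ι : ∀ m, L m →+* Fb) {T : ℕ → ℤ} {n : ℕ} {A : Type} [Fintype A]
    [DecidableEq A] {dg : A → ℕ} {F : ∀ m, A → MvPolynomial (Fin (n + 1)) (L m)}
    (hF : ∀ m a, (F m a).IsHomogeneous (dg a)) (hgen : ∀ m, GenA dg (F m)) {C : ℤ}
    (hFc : ∀ m a I, hgt (κ m) ((F m a).coeff I) ≤ C * T m)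
    (hd : 3 * n + 2 = 2 * ∑ a, dg a + Fintype.card A) (hcr : Crit n dg) {l0 : Fin (n + 1)}
    (x : ∀ m, Fin (n + 1) → L m) (hxF : ∀ m a, eval (x m) (F m a) = 0)
    (hP : ∀ m, Pln (κ m) (C * T m) l0 (x m))
    (hX : ∀ m, ¬ Exc 1 (fun a => map (ι m) (F m a)) Finset.univ
      (fun j => ι m (x m j))) (l : Fin (n + 1)) :
    ∃ B : ℤ, ∀ᶠ m in (Filter.hyperfilter ℕ : Filter ℕ), hgt (κ m) (x m l) ≤ B * T m := by
  classical
  have hczL : CharZero (L 0) := charZero_of_injective_algebraMap (algebraMap (κ 0) (L 0)).injective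
  have hczK : CharZero Fb := charZero_of_injective_ringHom (ι 0).injective
  have hczOm : CharZero (Om Fb) :=
    charZero_of_injective_algebraMap (algebraMap Fb (Om Fb)).injective
  have hinfK : Infinite Fb := IsAlgClosed.instInfinite
  have hacOm : IsAlgClosed (Om Fb) := Pool.Agent.W917.RG.GAC.main Fb
  choose u0 v0 p he hxp hht using hP
  obtain ⟨u1, hu⟩ := ev_const u0
  obtain ⟨v1, hv⟩ := ev_const v0
  obtain ⟨E, hE⟩ : ∃ E : Subfield (Om Fb), E = BU κ ι T := ⟨_, rfl⟩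
  -- the limits
  obtain ⟨P, hPP⟩ : ∃ P : Fin 3 → Fin (n + 1) → Om Fb, ∀ s i, P s i = Om.mk fun m => ι m (p m s i) :=
    ⟨_, fun _ _ => rfl⟩
  obtain ⟨z, hz⟩ : ∃ z : Fin (n + 1) → Om Fb, ∀ i, z i = Om.mk fun m => ι m (x m i) :=
    ⟨_, fun _ => rfl⟩
  have hPmem : ∀ s i, P s i ∈ E := by
    intro s i
    rw [hPP, hE]
    exact BU.mem (B := C) fun m => hht m s i
  have hzP : ∀ i, z i = P 0 i + z u1 * P 1 i + z v1 * P 2 i := by
    intro i
    rw [hz, hz, hz, hPP, hPP, hPP, Om.mk_mul, Om.mk_mul, Om.mk_add, Om.mk_add, Om.mk_eq]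
    filter_upwards [hu, hv] with m h1 h2
    rw [← h1, ← h2, ← map_mul, ← map_mul, ← map_add, ← map_add]
    exact congrArg (ι m) (hxp m i)
  have hech : Ech l0 u1 v1 P := by
    obtain ⟨m, ⟨h1, h2⟩, -⟩ := ((hu.and hv).and
      (Filter.Eventually.of_forall fun _ => trivial)).exists
    have h3 := he m
    rw [h1, h2] at h3
    have h0' : ∀ (s : Fin 3) (i : Fin (n + 1)), (∀ᶠ m in (Filter.hyperfilter ℕ : Filter ℕ),
        p m s i = 0) → P s i = 0 := by
      intro s i h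
      rw [hPP]
      exact Om.mk_eq.2 (h.mono fun m hm => by rw [hm, map_zero])
    have h1' : ∀ (s : Fin 3) (i : Fin (n + 1)), (∀ᶠ m in (Filter.hyperfilter ℕ : Filter ℕ),
        p m s i = 1) → P s i = 1 := by
      intro s i h
      rw [hPP]
      exact Om.mk_eq.2 (h.mono fun m hm => by rw [hm, map_one])
    have hev : ∀ᶠ m in (Filter.hyperfilter ℕ : Filter ℕ), Ech l0 u1 v1 (p m) := by
      filter_upwards [hu, hv] with m h1 h2
      have h3 := he m
      rwa [h1, h2] at h3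
    exact ⟨h3.1, h3.2.1, h3.2.2.1,
      ⟨h1' _ _ (hev.mono fun m h => h.2.2.2.1.1), h0' _ _ (hev.mono fun m h => h.2.2.2.1.2.1),
        h0' _ _ (hev.mono fun m h => h.2.2.2.1.2.2)⟩,
      ⟨h0' _ _ (hev.mono fun m h => h.2.2.2.2.1.1), h1' _ _ (hev.mono fun m h => h.2.2.2.2.1.2.1),
        h0' _ _ (hev.mono fun m h => h.2.2.2.2.1.2.2)⟩,
      ⟨h0' _ _ (hev.mono fun m h => h.2.2.2.2.2.1), h0' _ _ (hev.mono fun m h => h.2.2.2.2.2.2.1),
        h1' _ _ (hev.mono fun m h => h.2.2.2.2.2.2.2)⟩⟩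
  -- the fields
  obtain ⟨N, hN⟩ : ∃ N : Subfield (Om Fb), N = (algebraicClosure E (Om Fb)).toSubfield :=
    ⟨_, rfl⟩
  have hac : IsAlgClosed N := by
    subst hN
    exact (algebraicClosure.isAlgClosure E (Om Fb)).isAlgClosed
  have hcz1 : CharZero N := by
    constructor
    intro a b hab
    have h1 := congrArg (fun z : N => (z : Om Fb)) hab
    simpa using h1
  have hmem : ∀ z ∈ E, z ∈ N := by
    intro z hz
    rw [hN]
    change z ∈ algebraicClosure E (Om Fb)
    rw [mem_algebraicClosure_iff]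
    have h1 : z = algebraMap E (Om Fb) ⟨z, hz⟩ := rfl
    rw [h1]
    exact isAlgebraic_algebraMap _
  have hmem' : ∀ z, z ∈ N → IsAlgebraic E z := by
    intro z hz
    rw [hN] at hz
    change z ∈ algebraicClosure E (Om Fb) at hz
    rwa [mem_algebraicClosure_iff] at hz
  -- the limit of the forms
  obtain ⟨G, hG⟩ : ∃ G : ℕ → A → MvPolynomial (Fin (n + 1)) Fb,
    ∀ m a, G m a = map (ι m) (F m a) := ⟨_, fun _ _ => rfl⟩
  have hGh : ∀ m a, (G m a).IsHomogeneous (dg a) := fun m a => by rw [hG]; exact (hF m a).map _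
  have hcE : ∀ a I, (Om.mk fun m => (G m a).coeff I) ∈ N := by
    intro a I
    refine hmem _ ?_
    rw [hE]
    have h1 : (fun m => (G m a).coeff I) = fun m => ι m ((F m a).coeff I) := by
      funext m
      rw [hG, coeff_map]
    rw [h1]
    exact BU.mem (B := C) fun m => hFc m a I
  obtain ⟨FN, hFN⟩ : ∃ FN : A → MvPolynomial (Fin (n + 1)) N,
      ∀ a, FN a = form n (dg a) fun I => ⟨_, hcE a I⟩ := ⟨_, fun _ => rfl⟩
  have hFNh : ∀ a, (FN a).IsHomogeneous (dg a) := fun a => by rw [hFN]; exact form_hom _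
  have hFNl : ∀ a, map (algebraMap N (Om Fb)) (FN a) = lim (dg a) fun m => G m a := by
    intro a
    rw [hFN, map_form]
    rfl
  have hgN : GenA dg FN := by
    refine GenA.of_map (algebraMap N (Om Fb)) ?_
    have h1 : (fun a => map (algebraMap N (Om Fb)) (FN a)) =
        fun a => lim (dg a) fun m => G m a := funext hFNl
    rw [h1]
    refine GenA.lim fun m => ?_
    have h2 := (hgen m).map (ι m)
    have h3 : (fun a => map (ι m) (F m a)) = G m := funext fun a => (hG m a).symm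
    rwa [h3] at h2
  obtain ⟨pN, hpN⟩ : ∃ pN : Fin 3 → Fin (n + 1) → N,
      ∀ s i, pN s i = ⟨P s i, hmem _ (hPmem s i)⟩ := ⟨_, fun _ _ => rfl⟩
  have hechN : Ech l0 u1 v1 pN := by
    obtain ⟨h1, h2, h3, ⟨e1, e2, e3⟩, ⟨e4, e5, e6⟩, ⟨e7, e8, e9⟩⟩ := hech
    have h0' : ∀ s i, P s i = 0 → pN s i = 0 := by
      intro s i h
      rw [hpN]
      exact Subtype.ext h
    have h1' : ∀ s i, P s i = 1 → pN s i = 1 := by
      intro s i h
      rw [hpN]
      exact Subtype.ext h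
    exact ⟨h1, h2, h3, ⟨h1' _ _ e1, h0' _ _ e2, h0' _ _ e3⟩, ⟨h0' _ _ e4, h1' _ _ e5, h0' _ _ e6⟩,
      ⟨h0' _ _ e7, h0' _ _ e8, h1' _ _ e9⟩⟩
  have hnpc := npc hFNh hgN hd hcr
  have hGx : ∀ m a, eval (fun j => ι m (x m j)) (G m a) = 0 := by
    intro m a
    rw [hG, eval_map]
    have h1 := hom_eval₂ (F m a) (RingHom.id (L m)) (ι m) (x m)
    rw [RingHom.comp_id] at h1
    have h2 : eval₂ (RingHom.id (L m)) (x m) (F m a) = eval (x m) (F m a) := rfl
    rw [h2, hxF, map_zero] at h1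
    exact h1.symm
  have hzz : z = fun j => Om.mk fun m => ι m (x m j) := funext hz
  have hevz : ∀ a, eval z (lim (dg a) fun m => G m a) = 0 := by
    intro a
    have h1 := eval_lim (fun m => hGh m a) fun m j => ι m (x m j)
    rw [hzz, h1]
    have h2 : (fun m => eval (fun j => ι m (x m j)) (G m a)) = fun _ => 0 :=
      funext fun m => hGx m a
    rw [h2]
    rfl
  have key := plane_cases hFNh hnpc hechN (z := z) (U := z u1) (V := z v1) (fun i => by
      rw [hpN, hpN, hpN]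
      change z i = P 0 i + P 1 i * z u1 + P 2 i * z v1
      rw [hzP i]
      ring) (fun a => by
      rw [aeval_def, ← eval_map, hFNl, hevz])
  rcases key with h | ⟨y, ik, hik, hy⟩
  · obtain ⟨r, hr⟩ := h l
    have h1 : z l ∈ N := by
      rw [← hr]
      exact r.2
    have h2 := hmem' _ h1
    rw [hz, hE] at h2
    exact BU.alg (v := fun m => x m l) h2
  · exfalso
    rw [hzz] at hik
    obtain ⟨m, hm⟩ := exc_lim hGh (fun m j => ι m (x m j)) hGx hik (fun a α β => by
      rw [← hFNl, ← hzz]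
      exact hy a α β)
    refine hX m ?_
    have h3 : (fun a => map (ι m) (F m a)) = G m := funext fun a => (hG m a).symm
    rwa [h3]

end Pool.Agent.KS6_26.U
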