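import Pool.Agent.KS6_26.U.Ultra
import Pool.Agent.KS6_26.U.Emb
import Pool.Graph.R_seed8.Y741.UPairs
import Pool.Graph.R_seed8.Y741.ScaleV

/-!
The heights of the points of generic complete intersections on the borderline: uniform constants.
-/

set_option autoImplicit false

open MvPolynomial FF Pool.Agent.W603.LV Pool.Agent.W603.PV Pool.Agent.W602.RG Pool.Agent.TH145.GH
  Pool.Agent.TH145.MF Pool.Agent.Y741
open Pool.Agent.TH145.GC (Cf finite_cf)
open Pool.Agent.Y735 (pl)
open Pool.Agent.KS6_26.G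

namespace Pool.Agent.KS6_26.U

theorem pln_mono {k K : Type} [Field k] [Field K] [Algebra k K] {n : ℕ} {H H' : ℤ} (h : H ≤ H')
    {l0 : Fin (n + 1)} {x : Fin (n + 1) → K} (hp : Pln k H l0 x) : Pln k H' l0 x := by
  obtain ⟨u0, v0, p, h1, h2, h3⟩ := hp
  exact ⟨u0, v0, p, h1, h2, fun s i => (h3 s i).trans h⟩

/-- Exceptional points and extensions of the field. -/
theorem exc_transfer {L M Ω : Type} [Field L] [Field M] [Field Ω] [IsAlgClosed M] [CharZero L]
    [IsAlgClosed Ω] [Algebra L Ω] (ι : L →+* M) {n r : ℕ} {A : Type} [Fintype A] [DecidableEq A]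
    {dg : A → ℕ} {F : Fam L n A} (hF : ∀ a, (F a).IsHomogeneous (dg a)) {x : Fin (n + 1) → L}
    (hx : ∀ a, eval x (F a) = 0)
    (h : Exc r (fun a => map ι (F a)) Finset.univ fun j => ι (x j)) :
    Exc r (mapF (algebraMap L Ω) F) Finset.univ fun j => algebraMap L Ω (x j) := by
  let _ : Algebra L M := ι.toAlgebra
  obtain ⟨φ⟩ : Nonempty (AlgebraicClosure L →ₐ[L] M) := ⟨IsAlgClosed.lift⟩
  obtain ⟨ψ⟩ : Nonempty (AlgebraicClosure L →ₐ[L] Ω) := ⟨IsAlgClosed.lift⟩
  let _ : Algebra (AlgebraicClosure L) M := φ.toRingHom.toAlgebra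
  have hinf : Infinite (AlgebraicClosure L) := IsAlgClosed.instInfinite
  have hinf' : Infinite Ω := IsAlgClosed.instInfinite
  have hFc : ∀ a, (mapF (algebraMap L (AlgebraicClosure L)) F a).IsHomogeneous (dg a) := fun a =>
    (hF a).map _
  have hxc : ∀ c ∈ (Finset.univ : Finset A), eval (fun j => algebraMap L (AlgebraicClosure L) (x j))
      (mapF (algebraMap L (AlgebraicClosure L)) F c) = 0 := by
    intro c _
    unfold mapF
    rw [eval_mapF, hx, map_zero]
  have h1 : Exc r (mapF (algebraMap L (AlgebraicClosure L)) F) Finset.univ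
      fun j => algebraMap L (AlgebraicClosure L) (x j) := by
    refine exc_descend (Ω := M) hFc hxc ?_
    have e1 : mapF (algebraMap (AlgebraicClosure L) M) (mapF (algebraMap L (AlgebraicClosure L)) F) =
        fun a => map ι (F a) := by
      unfold mapF
      funext a
      rw [map_map]
      exact congrArg (fun f => map f (F a)) φ.comp_algebraMap
    have e2 : (fun j => algebraMap (AlgebraicClosure L) M
        (algebraMap L (AlgebraicClosure L) (x j))) = fun j => ι (x j) := by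
      funext j
      exact φ.commutes (x j)
    rw [e1, e2]
    exact h
  have h2 := exc_map ψ.toRingHom hFc hxc h1
  have e1 : mapF ψ.toRingHom (mapF (algebraMap L (AlgebraicClosure L)) F) =
      mapF (algebraMap L Ω) F := by
    unfold mapF
    funext a
    rw [map_map]
    exact congrArg (fun f => map f (F a)) ψ.comp_algebraMap
  have e2 : (fun j => ψ.toRingHom (algebraMap L (AlgebraicClosure L) (x j))) =
      fun j => algebraMap L Ω (x j) := by
    funext j
    exact ψ.commutes (x j)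
  rw [e1, e2] at h2
  exact h2

/-- A point of large relative height on a plane of bounded relative height. -/
structure Ctr (n : ℕ) (A : Type) [Fintype A] [DecidableEq A] (dg : A → ℕ) (C : ℤ)
    (l0 : Fin (n + 1)) (m : ℕ) where
  κ : Type
  L : Type
  Ω : Type
  [fκ : Field κ]
  [fL : Field L]
  [fΩ : Field Ω]
  [algL : Algebra κ L]
  [algΩ : Algebra L Ω]
  [acκ : IsAlgClosed κ]
  [czκ : CharZero κ]
  [ff : IsFF κ L]
  [acΩ : IsAlgClosed Ω]
  F : Fam L n A
  T : ℤ
  hom : ∀ a, (F a).IsHomogeneous (dg a)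
  gen : GenA dg F
  hFc : ∀ a I, hgt κ ((F a).coeff I) ≤ C * T
  x : Fin (n + 1) → L
  hxF : ∀ a, eval x (F a) = 0
  hP : Pln κ (C * T) l0 x
  hX : ¬ Exc 1 (mapF (algebraMap L Ω) F) Finset.univ fun j => algebraMap L Ω (x j)
  l : Fin (n + 1)
  hT : 0 ≤ T
  hl : m * T < hgt κ (x l)

theorem no_ctr {n : ℕ} {A : Type} [Fintype A] [DecidableEq A] {dg : A → ℕ}
    (hd : 3 * n + 2 = 2 * ∑ a, dg a + Fintype.card A) (hcr : Crit n dg) {C : ℤ}
    {l0 : Fin (n + 1)} (b : ∀ m, Ctr n A dg C l0 m) : False := by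
  classical
  let κ : ℕ → Type := fun m => (b m).κ
  let L : ℕ → Type := fun m => (b m).L
  let i1 : ∀ m, Field (κ m) := fun m => (b m).fκ
  let i2 : ∀ m, Field (L m) := fun m => (b m).fL
  let i3 : ∀ m, Algebra (κ m) (L m) := fun m => (b m).algL
  have i4 : ∀ m, IsAlgClosed (κ m) := fun m => (b m).acκ
  have i5 : ∀ m, CharZero (κ m) := fun m => (b m).czκ
  have i6 : ∀ m, IsFF (κ m) (L m) := fun m => (b m).ff
  have i7 : ∀ m, CharZero (L m) := fun m =>
    charZero_of_injective_algebraMap (algebraMap (κ m) (L m)).injective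
  obtain ⟨Fb, _, _, hFb⟩ := exists_common L
  obtain ⟨ι, -⟩ : ∃ ι : ∀ m, L m →+* Fb, True := ⟨fun m => (hFb m).some, trivial⟩
  have key := ultraV (κ := κ) (L := L) ι (T := fun m => (b m).T) (dg := dg)
    (F := fun m => (b m).F) (fun m => (b m).hom) (fun m => (b m).gen) (C := C)
    (fun m => (b m).hFc) hd hcr (l0 := l0) (fun m => (b m).x) (fun m => (b m).hxF)
    (fun m => (b m).hP) (fun m h => by
      let _ : Field (b m).Ω := (b m).fΩ
      let _ : Algebra (b m).L (b m).Ω := (b m).algΩ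
      have _ : IsAlgClosed (b m).Ω := (b m).acΩ
      exact (b m).hX (exc_transfer (Ω := (b m).Ω) (ι m) (b m).hom (b m).hxF h))
  choose B hB using key
  obtain ⟨B', hB'⟩ : ∃ B' : ℕ, ∀ l, B l ≤ B' := by
    refine ⟨∑ l, (B l).toNat, fun l => ?_⟩
    have h2 := Finset.single_le_sum (f := fun l => (B l).toNat) (fun _ _ => Nat.zero_le _)
      (Finset.mem_univ l)
    have h3 := Int.self_le_toNat (B l)
    have h4 : (((B l).toNat : ℕ) : ℤ) ≤ ((∑ l, (B l).toNat : ℕ) : ℤ) := by exact_mod_cast h2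
    linarith
  have h2 : ∀ᶠ m in (Filter.hyperfilter ℕ : Filter ℕ), B' ≤ m := by
    have h3 : ∀ᶠ m in (Filter.cofinite : Filter ℕ), B' ≤ m := by
      rw [Nat.cofinite_eq_atTop]
      exact Filter.eventually_ge_atTop B'
    exact Filter.hyperfilter_le_cofinite h3
  obtain ⟨m, h3, h4⟩ := ((Filter.eventually_all.2 hB).and h2).exists
  have h5 := (b m).hl
  have h6 := h3 (b m).l
  have h7 := hB' (b m).l
  have h8 : (B' : ℤ) ≤ m := by exact_mod_cast h4
  have h9 := (b m).hT
  have h10 : B (b m).l * (b m).T ≤ m * (b m).T :=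
    mul_le_mul_of_nonneg_right (h7.trans h8) h9
  exact absurd (lt_of_lt_of_le h5 (h6.trans h10)) (lt_irrefl _)

/-- The heights of the points of generic complete intersections on the borderline. -/
theorem uni_border (n : ℕ) (A : Type) [Fintype A] [DecidableEq A] (dg : A → ℕ)
    (hA : Fintype.card A < n) (hd : 3 * n + 2 = 2 * ∑ a, dg a + Fintype.card A)
    (hcr : Crit n dg) :
    ∃ c : ℤ, 0 ≤ c ∧ ∀ (κ L Ω : Type) [Field κ] [Field L] [Field Ω] [Algebra κ L] [Algebra L Ω]
      [IsAlgClosed κ] [CharZero κ] [IsFF κ L] [IsAlgClosed Ω]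
      (F : Fam L n A) (D : A → (Fin (n + 1) →₀ ℕ) → Derivation ℤ L L) (e g : Place κ L → ℤ)
      (E G : ℤ), DataL κ F dg D e g → Comm D → Loc e E → Loc g G → GenA dg F →
      ∀ x : Fin (n + 1) → L, x ≠ 0 → (∀ a, eval x (F a) = 0) →
      ¬ Exc 1 (mapF (algebraMap L Ω) F) Finset.univ (fun j => algebraMap L Ω (x j)) →
      pht κ x ≤ c * (E + G) := by
  classical
  obtain ⟨C, hC⟩ : ∃ C : ℕ, C = n + 1 := ⟨_, rfl⟩
  have hrest : ∀ l0 : Fin (n + 1), ∃ m : ℕ, ¬ Nonempty (Ctr n A dg C l0 m) := by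
    intro l0
    by_contra hcon
    have h1 : ∀ m, Nonempty (Ctr n A dg C l0 m) := fun m => by
      by_contra h2
      exact hcon ⟨m, h2⟩
    exact no_ctr hd hcr fun m => (h1 m).some
  choose M hM using hrest
  obtain ⟨M', hM'⟩ : ∃ M' : ℕ, ∀ l, M l ≤ M' :=
    ⟨∑ l, M l, fun l => Finset.single_le_sum (f := M) (fun _ _ => Nat.zero_le _)
      (Finset.mem_univ l)⟩
  obtain ⟨S0, hS0⟩ : ∃ S0 : ℤ, S0 = ((∑ a, dg a : ℕ) : ℤ) := ⟨_, rfl⟩
  have hS00 : 0 ≤ S0 := by rw [hS0]; positivity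
  obtain ⟨c1, hc1⟩ : ∃ c1 : ℤ, c1 = n + 1 + Fintype.card A := ⟨_, rfl⟩
  have hc10 : 0 ≤ c1 := by rw [hc1]; positivity
  refine ⟨(S0 + 1) * (c1 + 1) + (n + 1) * M', by positivity, ?_⟩
  intro κ L Ω _ _ _ _ _ _ _ _ _ F D e g E G hdat hcm hLe hLg hgen x hx0 hxF hexc
  have hczL : CharZero L := charZero_of_injective_algebraMap (algebraMap κ L).injective
  have hE := hLe.B_nonneg
  have hG := hLg.B_nonneg
  obtain ⟨T, hT⟩ : ∃ T, T = E + G := ⟨_, rfl⟩
  rw [← hT]
  have hT0 : 0 ≤ T := by rw [hT]; positivity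
  obtain ⟨l0, hl0⟩ := Function.ne_iff.1 hx0
  have hl0' : x l0 ≠ 0 := hl0
  obtain ⟨x', hx'⟩ : ∃ x' : Fin (n + 1) → L, x' = (x l0)⁻¹ • x := ⟨_, rfl⟩
  have hx'l : x' l0 = 1 := by
    rw [hx', Pi.smul_apply, smul_eq_mul, inv_mul_cancel₀ hl0']
  have hx'0 : x' ≠ 0 := by
    intro h0
    rw [h0] at hx'l
    exact zero_ne_one hx'l
  have hx'F : ∀ a, eval x' (F a) = 0 := by
    intro a
    rw [hx', eval_smul_hom (hdat.hom a), hxF, mul_zero]
  have hpht : pht κ x = pht κ x' := by
    rw [hx']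
    exact (pht_scale ⟨l0, hl0'⟩ (inv_ne_zero hl0')).symm
  have hexc' : ¬ Exc 1 (mapF (algebraMap L Ω) F) Finset.univ
      (fun j => algebraMap L Ω (x' j)) := by
    rintro ⟨y, ik, hik, h1, h2⟩
    apply hexc
    have hs : (fun j => algebraMap L Ω (x' j)) =
        algebraMap L Ω (x l0)⁻¹ • fun j => algebraMap L Ω (x j) := by
      funext j
      rw [hx', Pi.smul_apply, Pi.smul_apply, smul_eq_mul, smul_eq_mul, map_mul]
    have hinf : Infinite Ω := IsAlgClosed.instInfinite
    refine ⟨y, ik, fun h0 => hik ?_, fun c hc a b => ?_, ?_⟩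
    · have h3 : pl (fun j => algebraMap L Ω (x' j)) y ik = algebraMap L Ω (x l0)⁻¹ *
          pl (fun j => algebraMap L Ω (x j)) y ik := by
        rw [hs]
        simp only [pl, Pi.smul_apply, smul_eq_mul]
        ring
      rw [h3, h0, mul_zero]
    · have h3 := h1 c hc (a * algebraMap L Ω (x l0)) b
      rw [hs, smul_smul, mul_assoc, ← map_mul, mul_inv_cancel₀ hl0', map_one, mul_one] at h3
      exact h3
    · exact pun_of_one (dg := dg) le_rfl ⟨0, fun b hb => absurd (Finset.mem_univ b) hb⟩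
  rw [hpht]
  have hMT : 0 ≤ (n + 1) * (M' : ℤ) * T := by positivity
  have hST : 0 ≤ (S0 + 1) * (c1 + 1) * T := by positivity
  have hcomb := combineE (k := κ) (K := L) hdat hcm hA hd hx'F hx'l
  rcases hcomb with h | h | h
  · obtain ⟨y', ik, hik, h1⟩ := h
    exfalso
    apply hexc'
    have hinf : Infinite Ω := IsAlgClosed.instInfinite
    refine ⟨fun j => algebraMap L Ω (y' j), ik, ?_,
      (onL_mapF _ hdat.hom fun c _ => hx'F c).2 h1,
      pun_of_one (dg := dg) le_rfl ⟨0, fun b hb => absurd (Finset.mem_univ b) hb⟩⟩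
    rw [pl_map]
    dsimp only
    rwa [Ne, map_eq_zero]
  · have h1 := CL_le n A hLe hLg
    rw [← hc1] at h1
    have h2 := hLg.le
    have h3 : CL n A e g + ∑ᶠ P, g P ≤ (c1 + 1) * T := by
      rw [hT]
      nlinarith
    have h6 := mul_le_mul_of_nonneg_left h3 (by positivity : 0 ≤ S0 + 1)
    rw [← hS0] at h
    linarith
  · have hCP : CP n e g ≤ C * T := by
      have h1 := ((hLe.add hLg).mul (m := ((n : ℤ) + 1)) (by positivity)).le
      rw [hC, hT]
      push_cast
      exact h1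
    have hcoef : ∀ a I, hgt κ ((F a).coeff I) ≤ C * T := by
      intro a I
      have h1 := hgt_le_of_loc (κ := κ) hLg (fun P => hdat.coef P a I)
      have h2 : T ≤ C * T := by
        rw [hC]
        push_cast
        nlinarith
      linarith
    have h2 := pht_le (k := κ) x' (l := l0) (by rw [hx'l]; exact one_ne_zero)
    refine h2.trans ?_
    have h3 : ∑ j, hgt κ (x' j / x' l0) ≤ ∑ _j : Fin (n + 1), (M' : ℤ) * T := by
      refine Finset.sum_le_sum fun j _ => ?_
      rw [hx'l, div_one]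
      by_contra hcon
      push Not at hcon
      refine hM l0 ⟨⟨κ, L, Ω, F, T, hdat.hom, hgen, hcoef, x', hx'F, pln_mono hCP h, hexc', j,
        hT0, ?_⟩⟩
      refine lt_of_le_of_lt (mul_le_mul_of_nonneg_right ?_ hT0) hcon
      exact_mod_cast hM' l0
    rw [Finset.sum_const, Finset.card_univ, Fintype.card_fin, nsmul_eq_mul] at h3
    push_cast at h3
    nlinarith

end Pool.Agent.KS6_26.U
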