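import Pool.Graph.R_seed8.Y741.UVoj
import Pool.Agent.KS6_26.U.Uni

/-!
Vojta's height inequality for generic complete intersections on the borderline.
-/

set_option autoImplicit false

open MvPolynomial FF Pool.Agent.W603.LV Pool.Agent.W603.PV Pool.Agent.TH145.GH
open Pool.Agent.TH145.GC (Cf finite_cf)
open Pool.Agent.W602.GT Pool.Agent.TH145.MG
open Pool.Agent.Y735 (po po_finite)
open Pool.Agent.Y735.V Pool.Agent.TH812.GV Pool.Agent.TH812.GV2
open Pool.Agent.Y741 Pool.Agent.KS6_26.G

namespace Pool.Agent.KS6_26.U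

/-- The data over the finite extensions of a function field. -/
theorem exists_data {n : ℕ} {A : Type} [Fintype A] [DecidableEq A] {dg : A → ℕ}
    (hpos : ∀ a, 0 < dg a) {k0 k F0 F : Type} [Field k0] [Field k] [Field F0] [Field F]
    [IsAlgClosed k] [CharZero k] [Algebra k0 k] [Algebra k F] [Algebra k0 F] [IsScalarTower k0 k F]
    [Algebra k0 F0] [Algebra F0 F] [IsScalarTower k0 F0 F] [IsFF k F]
    (hfg : ∃ S : Finset F0, IntermediateField.adjoin k0 (S : Set F0) = ⊤)
    (H : A → MvPolynomial (Fin (n + 1)) F) (hH : ∀ a, (H a).IsHomogeneous (dg a))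
    (hgen : AlgebraicIndependent F0 fun p : Cf n dg => (H p.1).coeff p.2.1) :
    ∃ C1 C3 : ℕ, ∀ (L : Type) [Field L] [Algebra k L] [Algebra F L]
      [IsScalarTower k F L] [FiniteDimensional F L],
      ∃ (D' : A → (Fin (n + 1) →₀ ℕ) → Derivation ℤ L L) (el gl : Place k L → ℤ),
        DataL k (fun a => map (algebraMap F L) (H a)) dg D' el gl ∧ Comm D' ∧
        Loc el (canDeg k L + C1 * Module.finrank F L) ∧ Loc gl (C3 * Module.finrank F L) := by
  classical
  have hF : CharZero F := charZero_of_injective_algebraMap (algebraMap k F).injective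
  have hcf := finite_cf n dg
  obtain ⟨Db, hDbg, -, hDb, hDbc⟩ := exists_duals3 (k0 := k0) (k := k) (F0 := F0) (F := F) hfg
    (fun p : Cf n dg => (H p.1).coeff p.2.1) hgen
  obtain ⟨D, hD⟩ : ∃ D : A → (Fin (n + 1) →₀ ℕ) → Derivation ℤ F F, ∀ a I, D a I =
      if h : I.degree = dg a then Db ⟨a, ⟨I, h⟩⟩ else 0 := ⟨_, fun _ _ => rfl⟩
  have hDd : ∀ a I (h : I.degree = dg a), D a I = Db ⟨a, ⟨I, h⟩⟩ := fun a I h => by
    rw [hD, dif_pos h]
  have hD0 : ∀ a, ∀ I : Fin (n + 1) →₀ ℕ, I.degree ≠ dg a → D a I = 0 := fun a I h => by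
    rw [hD, dif_neg h]
  have hgood : ∀ a I, GoodS k (D a I) := by
    intro a I
    by_cases h : I.degree = dg a
    · rw [hDd a I h]; exact hDbg _
    · rw [hD0 a I h]; exact GoodS.zero
  have hcom : ∀ a b I J f, D a I (D b J f) = D b J (D a I f) := by
    intro a b I J f
    by_cases hI : I.degree = dg a
    · by_cases hJ : J.degree = dg b
      · rw [hDd a I hI, hDd b J hJ]; exact hDbc _ _ _
      · rw [hD0 b J hJ, Derivation.zero_apply, Derivation.zero_apply, map_zero]
    · rw [hD0 a I hI, Derivation.zero_apply, Derivation.zero_apply, map_zero]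
  choose q hq0 hqf hq using hgood
  have hfinI : ∀ a, {I : Fin (n + 1) →₀ ℕ | I.degree = dg a}.Finite := fun a =>
    (Finsupp.finite_of_degree_le (dg a)).subset fun I hI => le_of_eq hI
  obtain ⟨Q, hQ⟩ : ∃ Q : Place k F → ℤ, ∀ v, Q v = ∑ a, ∑ I ∈ (hfinI a).toFinset, q a I v :=
    ⟨_, fun _ => rfl⟩
  have hQ0 : ∀ v, 0 ≤ Q v := fun v => by
    rw [hQ]
    exact Finset.sum_nonneg fun a _ => Finset.sum_nonneg fun I _ => hq0 a I v
  have hQf : {v | Q v ≠ 0}.Finite := by
    have h1 : (⋃ a : A, ⋃ I ∈ (hfinI a).toFinset, {v | q a I v ≠ 0}).Finite :=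
      Set.finite_iUnion fun a => (hfinI a).toFinset.finite_toSet.biUnion fun I _ => hqf a I
    refine h1.subset fun v hv => ?_
    by_contra hcon
    simp only [Set.mem_iUnion, not_exists, Set.mem_ofPred_eq, not_not] at hcon
    apply hv
    rw [hQ]
    exact Finset.sum_eq_zero fun a _ => Finset.sum_eq_zero fun I hI => hcon a I hI
  have hQle : ∀ a (I : Fin (n + 1) →₀ ℕ), I.degree = dg a → ∀ v, q a I v ≤ Q v := by
    intro a I hI v
    rw [hQ]
    refine le_trans ?_ (Finset.single_le_sum (f := fun a => ∑ I ∈ (hfinI a).toFinset, q a I v)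
      (fun a _ => Finset.sum_nonneg fun I _ => hq0 a I v) (Finset.mem_univ a))
    exact Finset.single_le_sum (f := fun I => q a I v) (fun I _ => hq0 a I v)
      (by rw [Set.Finite.mem_toFinset]; exact hI)
  obtain ⟨C1, hC1⟩ := sum_loss (k := k) hQ0 hQf
  -- the poles of the coefficients
  obtain ⟨G, hG0, hGf, hG⟩ := exists_poles (κ := k)
    (Finset.univ.biUnion fun a => (H a).support.image fun u => (H a).coeff u)
  obtain ⟨C3, hC3⟩ := sum_under (k := k) hG0 hGf
  refine ⟨C1, C3, ?_⟩
  intro L _ _ _ _ _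
  have hL : IsFF k L := isFF_of_finite (F := F)
  have hLz : CharZero L := charZero_of_injective_algebraMap (algebraMap k L).injective
  choose D' hD' hDl using fun a I => hq a I L
  obtain ⟨HL, hHL⟩ : ∃ HL : Fam L n A, ∀ a, HL a = map (algebraMap F L) (H a) :=
    ⟨_, fun _ => rfl⟩
  obtain ⟨hqfin, hqsum⟩ := hC1 L
  obtain ⟨hufin, husum⟩ := hC3 L
  obtain ⟨el, hel⟩ : ∃ el : Place k L → ℤ, ∀ P, el P =
    ((ram F P : ℤ) - 1) + ram F P * Q (under F P) := ⟨_, fun _ => rfl⟩
  obtain ⟨gl, hgl⟩ : ∃ gl : Place k L → ℤ, ∀ P, gl P = ram F P * G (under F P) :=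
    ⟨_, fun _ => rfl⟩
  have hram : ∀ P : Place k L, (1 : ℤ) ≤ ram F P := fun P => by
    have := (ram_spec (F := F) P).1
    omega
  have hgl0 : ∀ P, 0 ≤ gl P := fun P => by
    rw [hgl]
    exact mul_nonneg (by positivity) (hG0 _)
  have hel0 : ∀ P, 0 ≤ el P := fun P => by
    rw [hel]
    have h1 := hram P
    have h2 : 0 ≤ (ram F P : ℤ) * Q (under F P) := mul_nonneg (by positivity) (hQ0 _)
    linarith
  have hpole : ∀ z : F, (∀ v, Ge v (-G v) z) → ∀ P : Place k L, Ge P (-gl P) (algebraMap F L z) := by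
    intro z hz P
    by_cases hz0 : z = 0
    · rw [hz0, map_zero]; exact Or.inl rfl
    · right
      have h1 := (hz (under F P)).resolve_left hz0
      rw [ord_under, hgl]
      have h2 := hram P
      nlinarith
  have hefin : {P | el P ≠ 0}.Finite := by simp only [hel]; exact hqfin
  have hgfin : {P | gl P ≠ 0}.Finite := by simp only [hgl]; exact hufin
  have hcoefz : ∀ a u v, Ge v (-G v) ((H a).coeff u) := by
    intro a u v
    by_cases hu : u ∈ (H a).support
    · exact hG v _ (Finset.mem_biUnion.2 ⟨a, Finset.mem_univ _, Finset.mem_image.2 ⟨u, hu, rfl⟩⟩)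
    · rw [notMem_support_iff.1 hu]; exact Or.inl rfl
  have hdat : DataL k HL dg D' el gl := by
    refine ⟨hpos, fun a => by rw [hHL]; exact (hH a).map _, ?_, hel0, hgl0, ?_, ?_, ?_⟩
    · intro a b I J hI hJ
      rw [hHL, coeff_map, hD', hDd a I hI]
      constructor
      · rintro rfl rfl
        have := (hDb ⟨a, ⟨I, hI⟩⟩ ⟨a, ⟨I, hJ⟩⟩).1 rfl
        dsimp only at this
        rw [this, map_one]
      · intro h
        have := (hDb ⟨a, ⟨I, hI⟩⟩ ⟨b, ⟨J, hJ⟩⟩).2 (by
          intro h2
          have h3 : a = b := congrArg Sigma.fst h2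
          subst h3
          have h4 := eq_of_heq (Sigma.mk.inj_iff.1 h2).2
          have h5 : I = J := congrArg Subtype.val h4
          rcases h with h | h
          · exact h rfl
          · exact h h5)
        dsimp only at this
        rw [this, map_zero]
    · intro P f hf a I hI
      obtain ⟨δ, hδ⟩ := exists_locd P
      obtain ⟨h1, h2⟩ := hDl a I P
      have h3 := h2 δ hδ 0 f hf
      have h4 := h1.mul (hδ.2.2 f hf)
      have h5 : D' a I f = D' a I (unif P) * δ f + (D' a I f - D' a I (unif P) * δ f) := by ring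
      have h6 := hQle a I hI (under F P)
      have h7 := hram P
      have h8 : (ram F P : ℤ) * q a I (under F P) ≤ ram F P * Q (under F P) :=
        mul_le_mul_of_nonneg_left h6 (by omega)
      rw [h5]
      refine Ge.add (h4.mono ?_) (h3.mono ?_)
      · rw [hel]; linarith
      · rw [hel]; linarith
    · intro P a u
      rw [hHL, coeff_map]
      exact hpole _ (fun v => hcoefz a u v) P
    · refine (hefin.union hgfin).subset fun P hP => ?_
      rcases hP with hP | hP
      · exact Or.inl hP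
      · exact Or.inr hP
  have hcomL : Comm D' := by
    intro a b I J f
    have h1 := zero_of_alg (F := F) (L := L) ⁅D' a I, D' b J⁆ (fun f => by
      rw [Derivation.commutator_apply, hD', hD', hD', hD', hcom, sub_self]) f
    rw [Derivation.commutator_apply] at h1
    exact sub_eq_zero.1 h1
  have hes : ∑ᶠ P, el P ≤ canDeg k L + C1 * Module.finrank F L := by
    have h1 : el = fun P => ((ram F P : ℤ) - 1) + ram F P * Q (under F P) := funext hel
    rw [h1]
    exact hqsum
  have hgs : ∑ᶠ P, gl P ≤ C3 * Module.finrank F L := by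
    have h1 : gl = fun P => (ram F P : ℤ) * G (under F P) := funext hgl
    rw [h1]
    exact husum
  have hGG : HL = fun a => map (algebraMap F L) (H a) := funext hHL
  rw [hGG] at hdat
  exact ⟨D', el, gl, hdat, hcomL, ⟨hel0, hefin, hes⟩, ⟨hgl0, hgfin, hgs⟩⟩

/-- Vojta's height inequality for generic complete intersections on the borderline. -/
theorem vojta_border (n : ℕ) (A : Type) [Fintype A] [DecidableEq A] (dg : A → ℕ)
    (hpos : ∀ a, 0 < dg a) (hA : Fintype.card A < n)
    (hd : 3 * n + 2 = 2 * ∑ a, dg a + Fintype.card A) (hcr : Crit n dg) :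
    ∃ c : ℕ, ∀ (k0 k F0 F : Type) [Field k0] [Field k] [Field F0] [Field F] [IsAlgClosed k]
      [CharZero k] [Algebra k0 k] [Algebra k F] [Algebra k0 F] [IsScalarTower k0 k F]
      [Algebra k0 F0] [Algebra F0 F] [IsScalarTower k0 F0 F] [IsFF k F],
      (∃ S : Finset F0, IntermediateField.adjoin k0 (S : Set F0) = ⊤) →
      ∀ (H : A → MvPolynomial (Fin (n + 1)) F), (∀ a, (H a).IsHomogeneous (dg a)) →
      (AlgebraicIndependent F0 fun p : Cf n dg => (H p.1).coeff p.2.1) →
      ∃ B : ℕ, ∀ (L Ω : Type) [Field L] [Field Ω] [Algebra k L] [Algebra F L]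
        [IsScalarTower k F L] [FiniteDimensional F L] [Algebra L Ω] [IsAlgClosed Ω]
        (x : Fin (n + 1) → L), x ≠ 0 → (∀ a, aeval x (H a) = 0) →
        ¬ Exc 1 (mapF (algebraMap L Ω) fun a => map (algebraMap F L) (H a)) Finset.univ
          (fun j => algebraMap L Ω (x j)) →
        pht k x ≤ c * canDeg k L + B * Module.finrank F L := by
  classical
  obtain ⟨c0, hc00, hc0⟩ := uni_border n A dg hA hd hcr
  refine ⟨c0.toNat, ?_⟩
  have e2 : ((c0.toNat : ℕ) : ℤ) = c0 := Int.toNat_of_nonneg hc00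
  rw [e2]
  intro k0 k F0 F _ _ _ _ _ _ _ _ _ _ _ _ _ _ hfg H hH hgen
  have hF : CharZero F := charZero_of_injective_algebraMap (algebraMap k F).injective
  obtain ⟨C1, C3, hC⟩ := exists_data (k0 := k0) (k := k) (F0 := F0) hpos hfg H hH hgen
  refine ⟨(c0 * (C1 + C3)).toNat, ?_⟩
  have e3 : (((c0 * (C1 + C3)).toNat : ℕ) : ℤ) = c0 * (C1 + C3) :=
    Int.toNat_of_nonneg (by positivity)
  rw [e3]
  intro L Ω _ _ _ _ _ _ _ _ x hx hxC hexc
  have hL : IsFF k L := isFF_of_finite (F := F)
  obtain ⟨D', el, gl, hdat, hcm, hLe, hLg⟩ := hC L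
  have hgenL : GenA dg fun a => map (algebraMap F L) (H a) :=
    GenA.map (algebraMap F L) (GenA.of_base hgen)
  have h1 := hc0 k L Ω (fun a => map (algebraMap F L) (H a)) D' el gl _ _ hdat hcm hLe hLg hgenL x
    hx (fun a => by rw [eval_map, ← aeval_def]; exact hxC a) hexc
  linarith

end Pool.Agent.KS6_26.U
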